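import Pool.Agent.N728.QU.AllK

set_option autoImplicit false

/-!
# The formula of Hardy and Littlewood for almost all polynomials `f(X) + c - f(h)`

Let `f = a X² + b X`, `a > 0`, and let `c ≠ 0` be an integer. For all but at most `ε H` of the integers `h ≤ H` for
which the triple `(a, b, k)`, `k = c - f(h)`, is admissible, the number of the `m ≤ M` for which `a m² + b m + k` is a
prime is given by the formula of Hardy and Littlewood with the full constant, for all `M ≤ K H` simultaneously (so for all
`x` up to a constant times the absolute value of the discriminant).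

Proof (`Agent/N728/QU`): `f(m) - f(h) + c = u v + c` with `u = m - h`, `v = a (m + h) + b = a u + b'`, `b' = 2 a h + b`
(and `c - u v` with `u = h - m`, `v = - a u + b'` for `m < h`). Bilinear sums over `c ± u v` with an arbitrary bounded
function of `v ∓ a u` do not change if a divisor of `u v`, composed of primes of a suitable range, is moved from `u` to
`v`; by the multiplication table phenomenon of Erdős few multiplicative windows contain such a divisor, and the
off-diagonal terms are bounded by two applications of the Cauchy-Schwarz inequality and the fundamental lemma of the sieve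
(functions with mean zero on the cells (residue class and block)). For the functions constant on the cells the range is
shifted, by moving divisors again, to `u ≤ v / (log v)^C`, where the theorem of Bombieri and Vinogradov at the sharp level
applies. The constants are controlled by the large sieve for quadratic characters.
-/

namespace Pool.Agent.Results.MP_484c84_nt.AlmostAllThinFamily

open Finset Filter Topology

/-- The value `a m² + b m + k`. -/
def value (a b k : ℤ) (m : ℕ) : ℤ := a * (m : ℤ) ^ 2 + b * m + k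

/-- The triple `(a, b, k)`, `a > 0`, is admissible. -/
def Admissible (a b k : ℤ) : Prop :=
  Int.gcd (Int.gcd a b : ℤ) k = 1 ∧ ¬ (Even (a + b) ∧ Even k) ∧ ¬ IsSquare (b ^ 2 - 4 * a * k)

/-- The constant of the problem with the products cut at `z`: `ε ∏_{p ∣ gcd(a, b)} p / (p - 1) ∏_{p ∤ a} (1 - (D/p) / (p - 1))`,
`p` running through the odd primes `p ≤ z` (`jacobiSym D p` is the Legendre symbol). -/
noncomputable def partialConst (a b k : ℤ) (z : ℕ) : ℝ :=
  (if Odd (a + b) then 1 else 2) *
    (∏ p ∈ (Icc 3 z).filter (fun p : ℕ => p.Prime ∧ (p : ℤ) ∣ a ∧ (p : ℤ) ∣ b), (p : ℝ) / (p - 1)) *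
    ∏ p ∈ (Icc 3 z).filter (fun p : ℕ => p.Prime ∧ ¬ (p : ℤ) ∣ a),
      (1 - (jacobiSym (b ^ 2 - 4 * a * k) p : ℝ) / (p - 1))

/-- The number of the `1 ≤ m ≤ M` with `a m² + b m + k` a (positive) prime. -/
def primeCount (a b k : ℤ) (M : ℕ) : ℕ := ((Icc 1 M).filter (fun m : ℕ => (value a b k m).toNat.Prime)).card

/-- The sum of `1 / log (a m² + b m + k)` over the `1 ≤ m ≤ M` with `a m² + b m + k ≥ 2`. -/
noncomputable def logSum (a b k : ℤ) (M : ℕ) : ℝ :=
  ∑ m ∈ (Icc 1 M).filter (fun m : ℕ => 2 ≤ value a b k m), 1 / Real.log ((value a b k m : ℤ) : ℝ)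

/-- The conclusion for one `k`: the constant exists and is at least `κ`, and the number of primes is the expected one up
to `δ H / log H`, for all `M ≤ K H`. -/
def Good (a b : ℤ) (κ δ : ℝ) (K H : ℕ) (k : ℤ) : Prop :=
  ∃ S : ℝ, Tendsto (partialConst a b k) atTop (𝓝 S) ∧ κ ≤ S ∧
    ∀ M : ℕ, M ≤ K * H → |(primeCount a b k M : ℝ) - S * logSum a b k M| ≤ δ * (H / Real.log H)

open Classical in
/-- The number of the `1 ≤ h ≤ H` for which `(a, b, k)`, `k = c - a h² - b h`, is admissible and the conclusion fails. -/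
noncomputable def exceptions (a b c : ℤ) (κ δ : ℝ) (K H : ℕ) : ℕ :=
  ((Icc 1 H).filter (fun h : ℕ => Admissible a b (c - (a * (h : ℤ) ^ 2 + b * h)) ∧
    ¬ Good a b κ δ K H (c - (a * (h : ℤ) ^ 2 + b * h)))).card

lemma partialConst_eq (a b k : ℤ) (z : ℕ) : partialConst a b k z = 2 * Pool.Agent.N728.QL.partialC a b k z := by
  unfold partialConst Pool.Agent.N728.QL.partialC
  split_ifs <;> ring

lemma Vg_eq (a b c : ℤ) (h m : ℕ) :
    Pool.Agent.N728.QU.Vg a b 1 c h m = value a b (c - (a * (h : ℤ) ^ 2 + b * h)) m := by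
  unfold Pool.Agent.N728.QU.Vg value
  ring

/-- **Theorem.** -/
theorem result (a b c : ℤ) (ha : 0 < a) (hc : c ≠ 0) :
    ∀ ε : ℝ, 0 < ε → ∃ κ : ℝ, 0 < κ ∧ ∀ (δ : ℝ) (K : ℕ), 0 < δ → ∃ H₀ : ℕ, ∀ H : ℕ, H₀ ≤ H →
      (exceptions a b c κ δ K H : ℝ) ≤ ε * H := by
  classical
  intro ε hε
  obtain ⟨κ, hκ, h1⟩ := Pool.Agent.N728.QU.finalK a b c ha hc ε hε
  refine ⟨2 * κ, by positivity, fun δ K hδ => ?_⟩
  obtain ⟨H₀, h2⟩ := h1 δ K hδ
  refine ⟨H₀, fun H hH => le_trans ?_ (h2 H hH)⟩
  unfold exceptions
  rw [Nat.cast_le]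
  apply card_le_card
  intro h hh
  rw [mem_filter] at hh ⊢
  refine ⟨hh.1, hh.2.1, fun hcon => hh.2.2 ?_⟩
  obtain ⟨C, hC1, hC2, hC3⟩ := hcon
  refine ⟨2 * C, ?_, by linarith, fun M hM => ?_⟩
  · have h3 : partialConst a b (c - (a * (h : ℤ) ^ 2 + b * h)) =
        fun z => 2 * Pool.Agent.N728.QL.partialC a b (c - (a * (h : ℤ) ^ 2 + b * h)) z :=
      funext (partialConst_eq a b _)
    rw [h3]
    exact Tendsto.const_mul 2 hC1
  · have h3 := hC3 M hM
    unfold primeCount logSum
    unfold Pool.Agent.N728.QU.cntg at h3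
    simp only [Vg_eq] at h3
    exact h3

end Pool.Agent.Results.MP_484c84_nt.AlmostAllThinFamily
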