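import Pool.Agent.N481.GV.Frq
import Pool.Agent.N481.GV.Main

/-!
# Vectors of consecutive gaps in sets of integers with rough polynomial values

Let `f_1, ..., f_g` be admissible polynomials, for instance `g = 1` and `f_1 = X ^ 2 + 1`, and let `S` be ANY set of
integers `n` such that the prime factors of all `f_i (n)` are larger than `n ^ δ`, with at least `c X / log ^ g X`
elements up to `X` (the right order of magnitude: for `n ^ 2 + 1` almost primes have this property, the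
`n` with `n ^ 2 + 1` prime are conjectured to have it).

(A) For every `m` the limit points of the vectors of `m` consecutive normalised gaps of `S` are a set of positive
Lebesgue measure in `ℝ ^ m`, with homothetic copies of every finite set of vectors, for all small ratios; the same
holds for the limit points of the vectors of the ratios of `m` consecutive gaps to the preceding gap.

(B) If `S ∩ (Z, Z + Y]`, `Y ≥ X ^ θ`, is a dense set of such integers, then a positive proportion of the vectors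
in `{1, ..., K log ^ g X} ^ m` are vectors of `m` consecutive gaps with the right frequency, and these vectors have
homothetic copies of every finite subset of `ℕ ^ m` with a ratio that is bounded independently of `X, Y, Z, S`, for a
positive proportion of all the places.

(C) The almost prime values satisfy the hypotheses.

The base is the unused theorem `Pool.Agent.X69.Ric` of the starting library on consecutive gaps in such sets; new are
the homothetic copies (Lebesgue density, and the density Hales-Jewett theorem of the library), the ratios and the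
packaging.
-/

set_option autoImplicit false

namespace Pool.Agent.Results.MP_484c84_nt.GapVectors

open Filter MeasureTheory Polynomial

/-- The polynomials `f i` are irreducible and nonconstant, different, have positive leading coefficients and no prime
divides one of the `f i (n)` for every `n`. -/
structure Admissible {g : ℕ} (f : Fin g → ℤ[X]) : Prop where
  irreducible : ∀ i, Irreducible (f i)
  nonconstant : ∀ i, 0 < (f i).natDegree
  leading : ∀ i, 0 < (f i).leadingCoeff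
  different : Function.Injective f
  noFixedDivisor : ∀ p : ℕ, p.Prime → ∃ n : ℕ, ∀ i, ¬ (p : ℤ) ∣ (f i).eval (n : ℤ)

/-- All the prime factors of all the `f i (n)` are at least `y`. -/
def Rough {g : ℕ} (f : Fin g → ℤ[X]) (y : ℝ) (n : ℕ) : Prop :=
  ∀ i, ∀ p : ℕ, p.Prime → (p : ℤ) ∣ (f i).eval (n : ℤ) → y ≤ p

/-- `S` has at least `c X / log ^ g X` elements up to `X`, for some `c > 0` and all large `X`. -/
def Many (g : ℕ) (S : Set ℕ) : Prop :=
  ∃ c : ℝ, 0 < c ∧ ∀ᶠ X : ℕ in atTop, c * X / Real.log X ^ g ≤ ((S ∩ Set.Icc 1 X).ncard : ℝ)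

/-- The element number `k` of `S`, from `k = 0`. -/
noncomputable def el (S : Set ℕ) (k : ℕ) : ℕ := Nat.nth (· ∈ S) k

/-- The vector of the `m` normalised gaps `(a (j + 1) - a j) / log ^ g (a j)`, `j = k, ..., k + m - 1`, where `a j` is
the element number `j` of `S`. -/
noncomputable def gaps (g : ℕ) (S : Set ℕ) (m k : ℕ) : Fin m → ℝ := fun i =>
  ((el S (k + i + 1) : ℝ) - el S (k + i)) / Real.log (el S (k + i)) ^ g

/-- The vector of the `m` ratios `(a (j + 2) - a (j + 1)) / (a (k + 1) - a k)`, `j = k, ..., k + m - 1`. -/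
noncomputable def ratios (S : Set ℕ) (m k : ℕ) : Fin m → ℝ := fun i =>
  ((el S (k + i + 2) : ℝ) - el S (k + i + 1)) / ((el S (k + 1) : ℝ) - el S k)

/-- The limit points of a sequence of vectors are a set of positive Lebesgue measure, and for every finite set `F` of
vectors they contain a homothetic copy `x + t F` of `F` for all `t` with small `|t|`. -/
def LargeLimitSet {m : ℕ} (u : ℕ → Fin m → ℝ) : Prop :=
  0 < volume {t : Fin m → ℝ | MapClusterPt t atTop u} ∧
    ∀ F : Finset (Fin m → ℝ), ∃ t₀ : ℝ, 0 < t₀ ∧ ∀ t : ℝ, |t| < t₀ →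
      ∃ x : Fin m → ℝ, ∀ v ∈ F, MapClusterPt (x + t • v) atTop u

/-- The elements of `S` from `n` to `n + h 0 + ... + h (m - 1)` are the `m + 1` integers
`n + h 0 + ... + h (j - 1)`, `0 ≤ j ≤ m`, and all the `h i` are positive. -/
def Gaps (S : Set ℕ) {m : ℕ} (h : Fin m → ℕ) (n : ℕ) : Prop :=
  (∀ i, 0 < h i) ∧ ∀ x, (x ∈ S ∧ n ≤ x ∧ x ≤ n + ∑ i, h i) ↔
    ∃ j : ℕ, j ≤ m ∧ x = n + ∑ i ∈ (Finset.univ : Finset (Fin m)).filter (fun i : Fin m => (i : ℕ) < j), h i

/-- The `m` positive integers `h i` are at most `K log ^ g X` and `h` is the vector of the next `m` gaps for at least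
`κ Y / log ^ (g (m + 1)) X` of the elements of `S` in `(Z, Z + Y]`. -/
def Frequent (g : ℕ) (S : Set ℕ) (X Z Y : ℕ) (K κ : ℝ) {m : ℕ} (h : Fin m → ℕ) : Prop :=
  (∀ i, 0 < h i ∧ (h i : ℝ) ≤ K * Real.log X ^ g) ∧
    κ * Y / Real.log X ^ (g * (m + 1)) ≤ ({n | n ∈ S ∧ n ∈ Set.Ioc Z (Z + Y) ∧ Gaps S h n}.ncard : ℝ)

/-- The `n` for which every `f i (n)` has at most `r` prime factors, counted with multiplicity, all of them larger
than `n ^ (1 / r)`. -/
def Almost {g : ℕ} (f : Fin g → ℤ[X]) (r : ℕ) : Set ℕ :=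
  {n | ∀ i, ArithmeticFunction.cardFactors ((f i).eval (n : ℤ)).natAbs ≤ r ∧
    ∀ p : ℕ, p.Prime → (p : ℤ) ∣ (f i).eval (n : ℤ) → (n : ℝ) ^ (1 / (r : ℝ)) < p}

/-- **Vectors of consecutive gaps** in sets of integers with rough values. -/
theorem result : Admissible (fun _ : Fin 1 => (X ^ 2 + 1 : ℤ[X])) ∧
    ∀ g : ℕ, 1 ≤ g → ∀ f : Fin g → ℤ[X], Admissible f →
    (∀ (δ : ℝ) (S : Set ℕ), 0 < δ → (∀ n ∈ S, Rough f ((n : ℝ) ^ δ) n) → Many g S → ∀ m : ℕ, 1 ≤ m →
      LargeLimitSet (gaps g S m) ∧ LargeLimitSet (ratios S m)) ∧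
    (∀ δ θ c : ℝ, 0 < δ → 0 < θ → 0 < c → ∀ m : ℕ, 1 ≤ m → ∃ K : ℝ, 0 < K ∧ ∃ κ : ℝ, 0 < κ ∧
      ∀ F : Finset (Fin m → ℕ), ∃ (T : ℕ) (η : ℝ), 0 < η ∧
      ∀ᶠ X : ℕ in atTop, ∀ Z Y : ℕ, (X : ℝ) ^ θ ≤ Y → ∀ S : Set ℕ,
        (∀ n ∈ S ∩ Set.Ioc Z (Z + Y), Rough f ((X : ℝ) ^ δ) n) →
        c * Y / Real.log X ^ g ≤ ((S ∩ Set.Ioc Z (Z + Y)).ncard : ℝ) →
        ∃ t : ℕ, 1 ≤ t ∧ t ≤ T ∧ η * Real.log X ^ (g * m) ≤
          ({h : Fin m → ℕ | Frequent g S X Z Y K κ h ∧
            ∀ v ∈ F, Frequent g S X Z Y K κ (h + t • v)}.ncard : ℝ)) ∧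
    (∃ r₀ : ℕ, ∀ r : ℕ, r₀ ≤ r → Many g (Almost f r)) ∧
    ∀ θ : ℝ, 0 < θ → θ ≤ 1 → ∃ r₀ : ℕ, ∀ r : ℕ, r₀ ≤ r → ∃ c : ℝ, 0 < c ∧
      ∀ᶠ X : ℕ in atTop, ∀ Y : ℕ, (X : ℝ) ^ θ ≤ Y → Y ≤ X →
        c * Y / Real.log X ^ g ≤ ((Almost f r ∩ Set.Ioc X (X + Y)).ncard : ℝ) := by
  refine ⟨⟨fun _ => Pool.Agent.N481.GV.irr_quad, fun _ => ?_, fun _ => ?_, fun _ _ _ => Subsingleton.elim _ _,
    fun p hp => ⟨0, fun _ => ?_⟩⟩, fun g hg f hf => ?_⟩
  · have : (X ^ 2 + 1 : ℤ[X]).natDegree = 2 := by compute_degree!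
    rw [this]; norm_num
  · have : (X ^ 2 + 1 : ℤ[X]).leadingCoeff = 1 := by
      rw [show (X ^ 2 + 1 : ℤ[X]) = X ^ 2 + C 1 by simp]
      exact Polynomial.leadingCoeff_X_pow_add_C (by norm_num)
    rw [this]; norm_num
  · intro hd
    simp only [eval_add, eval_pow, eval_X, eval_one, Nat.cast_zero] at hd
    norm_num at hd
    have h1 : (p : ℤ) ∣ 1 := hd
    have h2 : p ∣ 1 := by exact_mod_cast h1
    exact hp.one_lt.ne' (Nat.dvd_one.1 h2)
  have hS : Pool.Agent.W123.RU.Poly.Sys f := ⟨hf.irreducible, hf.nonconstant, hf.leading, hf.different, hf.noFixedDivisor⟩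
  have : NeZero g := ⟨by omega⟩
  refine ⟨fun δ S hδ hR hM m hm => ?_, fun δ θ c hδ hθ hc m hm => ?_, ?_, fun θ hθ hθ1 => ?_⟩
  · have hinf := Pool.Agent.N481.GV.many_infinite g S hM
    have h1 := Pool.Agent.X69.Ric.sys_gaps f hg hS S δ hδ hR hM m hm
    have h2 := Pool.Agent.N481.GV.ratio_cluster_pos g S hinf m
      (Pool.Agent.X69.Ric.sys_gaps f hg hS S δ hδ hR hM (m + 1) (by omega))
    exact ⟨⟨h1, Pool.Agent.N481.GV.copies_cluster _ h1⟩, ⟨h2, Pool.Agent.N481.GV.copies_cluster _ h2⟩⟩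
  · obtain ⟨K, hK, κ, hκ, h⟩ := Pool.Agent.N481.GV.frq_copies f hg hS δ θ c hδ hθ hc m hm
    refine ⟨K, hK, κ, hκ, fun F => ?_⟩
    obtain ⟨T, η, hη, hX⟩ := h F
    refine ⟨T, η, hη, ?_⟩
    filter_upwards [hX] with X hX Z Y hXY S hR hlow
    exact hX Z Y hXY S (fun n hn hnI i p hp hd => hR n ⟨hn, hnI⟩ i p hp hd) hlow
  · obtain ⟨r₀, -, h⟩ := Pool.Agent.X69.Ric.sys_almost f hS
    exact ⟨r₀, h⟩
  · obtain ⟨r₀, -, h⟩ := Pool.Agent.X69.Ric.sys_almost_short f hS θ hθ hθ1
    refine ⟨r₀, fun r hr => ?_⟩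
    obtain ⟨c, hc, h1⟩ := h r hr
    refine ⟨c, hc, ?_⟩
    filter_upwards [h1] with X hX Y hXY hYX
    rw [Set.inter_comm]
    exact hX Y hXY hYX

end Pool.Agent.Results.MP_484c84_nt.GapVectors
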