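import Pool.Agent.N798.M13

/-!
# Primes among the integer parts of the multiples of a polynomial

Let `P(u) = A u^γ + ∑ b_i u^{c_i}` be a generalised polynomial (`A > 0`, real exponents `c_i < γ`;
every real polynomial with positive leading coefficient is of this form, in particular `u² + 1`) and
let `f` be any function on the integers with `f(m) ≪ |m|^ε`.  For all `α > 0` outside a set of
Hausdorff dimension less than one, the sum of `f(⌊α P(n)⌋)` over `n ≤ N` equals the integral of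
`f(⌊α P(u)⌋)` over `1 ≤ u ≤ N` up to a power saving `O(N^{1-δ})`; here `δ > 0` and the bound for the
dimension depend only on `γ`.  In particular, for all `α > 0` outside a set of Hausdorff dimension
less than one, the number of `n ≤ N` for which `⌊α P(n)⌋` is prime is asymptotic to
`N / (γ log N)`.
-/

namespace Pool.Agent.Results.MP_484c84_nt.MetricPolynomials

open Finset MeasureTheory Filter
open scoped NNReal

/-- the generalised polynomial `A u^γ + ∑ i, b i * u^(c i)` -/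
noncomputable def genPoly {k : ℕ} (A γ : ℝ) (b c : Fin k → ℝ) (u : ℝ) : ℝ := A * u ^ γ + ∑ i, b i * u ^ c i

/-- `f(m) = O_ε((1+|m|)^ε)` for every `ε > 0` -/
def SmallGrowth (f : ℤ → ℂ) : Prop := ∀ ε : ℝ, 0 < ε → ∃ C : ℝ, ∀ m : ℤ, ‖f m‖ ≤ C * (1 + |(m : ℝ)|) ^ ε

/-- the sum of `f(⌊x(n)⌋)` over `1 ≤ n ≤ N` is the integral of `f(⌊x(u)⌋)` up to `O(N^{1-δ})` -/
def SumIsIntegral (f : ℤ → ℂ) (x : ℝ → ℝ) (δ : ℝ) : Prop :=
  ∃ C : ℝ, ∀ N : ℕ, 1 ≤ N → ‖(∑ n ∈ Icc 1 N, f ⌊x n⌋) - ∫ u in (1:ℝ)..N, f ⌊x u⌋‖ ≤ C * (N : ℝ) ^ (1 - δ)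

/-- the number of `1 ≤ n ≤ N` for which the integer part of `x n` is a prime number -/
noncomputable def primeCount (x : ℝ → ℝ) (N : ℕ) : ℕ := #((Icc 1 N).filter fun n : ℕ => (⌊x n⌋₊).Prime)

/-- the number of `n ≤ N` with `⌊x(n)⌋` prime is asymptotic to `N / (γ log N)` -/
def PrimeAsymptotic (x : ℝ → ℝ) (γ : ℝ) : Prop :=
  Tendsto (fun N : ℕ => (primeCount x N : ℝ) / (N / (γ * Real.log N))) atTop (nhds 1)

/-- **Sampling along the multiples of a generalised polynomial, and its primes.** -/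
theorem result :
    (∀ γ : ℝ, 0 < γ → ∃ δ : ℝ, 0 < δ ∧ ∃ s : ℝ≥0, s < 1 ∧
      ∀ (A : ℝ) (k : ℕ) (b c : Fin k → ℝ), 0 < A → (∀ i, c i < γ) → ∀ f : ℤ → ℂ, SmallGrowth f →
        dimH {α : ℝ | 0 < α ∧ ¬ SumIsIntegral f (fun u => α * genPoly A γ b c u) δ} ≤ s) ∧
    (∀ γ : ℝ, 0 < γ → ∃ s : ℝ≥0, s < 1 ∧ ∀ (A : ℝ) (k : ℕ) (b c : Fin k → ℝ), 0 < A → (∀ i, c i < γ) →
        dimH {α : ℝ | 0 < α ∧ ¬ PrimeAsymptotic (fun u => α * genPoly A γ b c u) γ} ≤ s) ∧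
    dimH {α : ℝ | 0 < α ∧ ¬ PrimeAsymptotic (fun u => α * (u ^ 2 + 1)) 2} < 1 ∧
    (∀ᵐ α : ℝ, 0 < α → PrimeAsymptotic (fun u => α * (u ^ 2 + 1)) 2) := by
  have h2 : ∀ γ : ℝ, 0 < γ → ∃ s : ℝ≥0, s < 1 ∧ ∀ (A : ℝ) (k : ℕ) (b c : Fin k → ℝ), 0 < A → (∀ i, c i < γ) →
        dimH {α : ℝ | 0 < α ∧ ¬ PrimeAsymptotic (fun u => α * genPoly A γ b c u) γ} ≤ s := by
    intro γ hγ
    obtain ⟨s, hs, h⟩ := Pool.Agent.N798.M.primes_dim hγ
    exact ⟨s, by exact_mod_cast hs, fun A k b c hA hc => h A k b c hA hc⟩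
  have h3 : dimH {α : ℝ | 0 < α ∧ ¬ PrimeAsymptotic (fun u => α * (u ^ 2 + 1)) 2} < 1 := by
    obtain ⟨s, hs, h⟩ := h2 2 (by norm_num)
    have h4 := h 1 1 (fun _ => 1) (fun _ => 0) one_pos (fun _ => by norm_num)
    have e1 : ∀ u : ℝ, genPoly 1 2 (fun _ : Fin 1 => (1:ℝ)) (fun _ => 0) u = u ^ 2 + 1 := by
      intro u
      unfold genPoly
      simp
    simp_rw [e1] at h4
    exact h4.trans_lt (by exact_mod_cast hs)
  refine ⟨fun γ hγ => ?_, h2, h3, ?_⟩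
  · obtain ⟨δ, hδ, s, hs, h⟩ := Pool.Agent.N798.M.alpha_dim hγ
    exact ⟨δ, hδ, s, by exact_mod_cast hs, fun A k b c hA hc f hf => h A k b c hA hc f hf⟩
  · have h5 : volume {α : ℝ | 0 < α ∧ ¬ PrimeAsymptotic (fun u => α * (u ^ 2 + 1)) 2} = 0 := by
      rw [← hausdorffMeasure_real]
      exact hausdorffMeasure_of_dimH_lt (d := 1) (by simpa using h3)
    rw [ae_iff]
    refine measure_mono_null ?_ h5
    intro α hα
    have hα' : ¬ (0 < α → PrimeAsymptotic (fun u => α * (u ^ 2 + 1)) 2) := hα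
    push Not at hα'
    exact hα'

end Pool.Agent.Results.MP_484c84_nt.MetricPolynomials
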