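import Pool.Agent.N895.PG.Main

set_option autoImplicit false

/-!
# The joint Poisson law for the gaps and the residues of consecutive almost primes `n ^ 2 + 1`

Call `n` rough if no prime `p ≤ y = X ^ (1 / r)` divides `n ^ 2 + 1`, and let `V` be the density of the
rough integers, the product of `1 - ρ(p) / p` over the primes `p ≤ y`. Every `n ≥ y` with `n ^ 2 + 1` prime
is rough, and a rough `n ≤ X` is such that `n ^ 2 + 1` has at most `2 r` prime factors. For fixed `q` and `l`,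
if `r` is large, then in EVERY interval of length at least `X ^ θ` the normalised gaps `(n' - n) V`
between the `l + 1` consecutive rough integers that start at a rough integer, and their residues modulo `q`,
are, up to an error `ε`, independent; the gaps have the exponential distribution and the residues are
equidistributed in the residue classes `b` with `(b ^ 2 + 1, q) = 1`. The same is proved for systems of
polynomials of bounded degree, uniformly in the coefficients.
-/

namespace Pool.Agent.Results.MP_484c84_nt.PoissonLaw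

open Polynomial Finset Filter

variable {k : ℕ}

/-- No prime `p ≤ y` divides one of the values `f_i(n)`. -/
def Rough (f : Fin k → ℤ[X]) (y n : ℕ) : Prop :=
  ∀ p : ℕ, p.Prime → p ≤ y → ∀ i, ¬ (p : ℤ) ∣ (f i).eval (n : ℤ)

open Classical in
/-- The number of the residue classes `m` modulo `p` for which `p` divides one of the values `f_i(m)`. -/
noncomputable def rho (f : Fin k → ℤ[X]) (p : ℕ) : ℕ :=
  ((range p).filter (fun m : ℕ => ∃ i, (p : ℤ) ∣ (f i).eval (m : ℤ))).card

/-- The sieve density: the product of `1 - ρ(p) / p` over the primes `p ≤ y`. -/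
noncomputable def V (f : Fin k → ℤ[X]) (y : ℕ) : ℝ :=
  ∏ p ∈ (range (y + 1)).filter Nat.Prime, (1 - (rho f p : ℝ) / p)

open Classical in
/-- The residue classes `b` modulo `q` such that no prime divisor of `q` divides one of the `f_i(b)`. -/
noncomputable def Classes (f : Fin k → ℤ[X]) (q : ℕ) : Finset ℕ :=
  (range q).filter (fun b : ℕ => ∀ p : ℕ, p.Prime → p ∣ q → ∀ i, ¬ (p : ℤ) ∣ (f i).eval (b : ℤ))

/-- The least element of `G` which is larger than `n`. -/
noncomputable def next (G : ℕ → Prop) (n : ℕ) : ℕ := sInf {m | n < m ∧ G m}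

open Classical in
/-- The number of the rough integers `n` in `(Z, Z + Y]` such that the consecutive rough integers
`n = n_0 < n_1 < ... < n_l` which begin with `n` satisfy `n_j ≡ c_j` modulo `q` for `0 ≤ j ≤ l` and
`s_j < n_{j + 1} - n_j ≤ T_j` for `0 ≤ j < l`. -/
noncomputable def N (f : Fin k → ℤ[X]) (y q l : ℕ) (c s T : ℕ → ℕ) (Z Y : ℕ) : ℕ :=
  ((Ioc Z (Z + Y)).filter (fun n : ℕ => Rough f y n ∧ n % q = c 0 ∧ ∀ j < l,
    (next (Rough f y))^[j + 1] n % q = c (j + 1) ∧
    s j < (next (Rough f y))^[j + 1] n - (next (Rough f y))^[j] n ∧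
    (next (Rough f y))^[j + 1] n - (next (Rough f y))^[j] n ≤ T j)).card

/-- The joint law in `(Z, Z + Y]`, up to `ε`: for all residue classes `c_j` in `Classes f q` and all bounds
`s_j ≤ T_j`, the number `N` is `Y V g ^ (-l-1)`, `g` the number of the classes, times the product over the
`0 ≤ j < l` of the exponential probabilities `exp (- s_j V) - exp (- T_j V)`, up to `ε Y V`. -/
def Law (f : Fin k → ℤ[X]) (y q l : ℕ) (ε : ℝ) (Z Y : ℕ) : Prop :=
  ∀ c s T : ℕ → ℕ, (∀ j ≤ l, c j ∈ Classes f q) → (∀ j < l, s j ≤ T j) →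
    |(N f y q l c s T Z Y : ℝ) - Y * V f y / ((Classes f q).card : ℝ) ^ (l + 1) *
      ∏ j ∈ range l, (Real.exp (-(V f y * s j)) - Real.exp (-(V f y * T j)))| ≤ ε * (Y * V f y)

/-- A system of `k` irreducible polynomials of degrees between `1` and `D`, with coefficients of absolute
value at most `H`, without fixed prime divisor, such that `f_i(x)` and `f_j(x + t)` are never equal up to the
sign if `1 ≤ t ≤ U`. -/
structure System (k D : ℕ) (H U : ℝ) (f : Fin k → ℤ[X]) : Prop where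
  irreducible : ∀ i, Irreducible (f i)
  degree_pos : ∀ i, (f i).natDegree ≠ 0
  degree_le : ∀ i, (f i).natDegree ≤ D
  height_le : ∀ i n, |(((f i).coeff n : ℤ) : ℝ)| ≤ H
  admissible : ∀ p : ℕ, p.Prime → ∃ m : ℕ, ∀ i, ¬ (p : ℤ) ∣ (f i).eval (m : ℤ)
  no_translates : ∀ i j, ∀ t : ℕ, 1 ≤ t → (t : ℝ) ≤ U → ¬ Associated (f i) ((f j).comp (X + C (t : ℤ)))

/-- The polynomial `x ^ 2 + 1`. -/
noncomputable def sq : Fin 1 → ℤ[X] := fun _ => X ^ 2 + 1

open Pool.Agent.W123.RP Pool.Agent.H373R2.T7 Pool.Agent.W123.RU Pool.Agent.W123.RU.Poly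
open Pool.Agent.TH464.PW Pool.Agent.TH464.PO Pool.Agent.Y879.GL Pool.Agent.R463.PP
open Pool.Agent.N895.PG

lemma rough_eq (f : Fin k → ℤ[X]) (y : ℕ) : Rough f y = Sf (Q f) y := by
  funext n
  apply propext
  unfold Rough Sf Q
  constructor
  · intro h p hp
    rintro ⟨i, hi⟩
    exact h p (mem_pz.1 hp).2 (mem_pz.1 hp).1 i hi
  · intro h p hp hpy i hi
    exact h p (mem_pz.2 ⟨hpy, hp⟩) ⟨i, hi⟩

lemma rho_eq (f : Fin k → ℤ[X]) (p : ℕ) : rho f p = nuB (Q f) p := by
  classical
  unfold rho nuB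
  refine congrArg Finset.card ?_
  ext m
  simp only [mem_filter]
  exact Iff.rfl

lemma V_eq (f : Fin k → ℤ[X]) (y : ℕ) : V f y = Vq (Q f) y := by
  classical
  unfold V Vq
  have h1 : (range (y + 1)).filter Nat.Prime = pz y := by
    ext p
    rw [mem_filter, mem_range, mem_pz]
    constructor
    · rintro ⟨h1, h2⟩
      exact ⟨by omega, h2⟩
    · rintro ⟨h1, h2⟩
      exact ⟨by omega, h2⟩
  rw [h1]
  exact prod_congr rfl fun p _ => by rw [rho_eq]

lemma classes_eq (f : Fin k → ℤ[X]) (q : ℕ) : Classes f q = Bs (Q f) q := by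
  classical
  unfold Classes Bs Av Q
  apply filter_congr
  intro b _
  constructor
  · intro h p hp hd
    rintro ⟨i, hi⟩
    exact h p hp hd i hi
  · intro h p hp hd i hi
    exact h p hp hd ⟨i, hi⟩

lemma N_eq (f : Fin k → ℤ[X]) (y q l : ℕ) (c s T : ℕ → ℕ) (Z Y : ℕ) :
    N f y q l c s T Z Y = Cp (Q f) y q l c s T Z Y := by
  classical
  unfold N Cp
  rw [rough_eq]
  refine congrArg Finset.card ?_
  ext n
  simp only [mem_filter]
  exact Iff.rfl

lemma law_of (f : Fin k → ℤ[X]) (y q l : ℕ) (ε : ℝ) (Z Y : ℕ)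
    (h : ∀ (c s T : ℕ → ℕ), (∀ j ≤ l, c j ∈ Bs (Q f) q) → (∀ j < l, s j ≤ T j) →
        |(Cp (Q f) y q l c s T Z Y : ℝ) - Y * Vq (Q f) y / ((Bs (Q f) q).card : ℝ) ^ (l + 1) *
          ∏ j ∈ range l, (Real.exp (-(Vq (Q f) y * s j)) - Real.exp (-(Vq (Q f) y * T j)))| ≤
          ε * (Y * Vq (Q f) y)) : Law f y q l ε Z Y := by
  intro c s T hc hsT
  rw [N_eq, V_eq, classes_eq]
  rw [classes_eq] at hc
  exact h c s T hc hsT

lemma sq_irr : Irreducible (X ^ 2 + 1 : ℤ[X]) := by
  have h := Polynomial.cyclotomic.irreducible (n := 4) (by norm_num)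
  rwa [show Polynomial.cyclotomic 4 ℤ = X ^ 2 + 1 by
    have := Polynomial.cyclotomic_prime_pow_eq_geom_sum (R := ℤ) (p := 2) (n := 1) Nat.prime_two
    norm_num at this
    rw [this]] at h

lemma sq_deg : (X ^ 2 + 1 : ℤ[X]).natDegree = 2 := by
  compute_degree!

lemma sq_sys : Sys sq := by
  refine ⟨fun _ => sq_irr, fun _ => ?_, fun _ => ?_, fun i j _ => Subsingleton.elim i j, ?_⟩
  · unfold sq
    rw [sq_deg]
    norm_num
  · unfold sq
    have h1 : (X ^ 2 + 1 : ℤ[X]).leadingCoeff = 1 := by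
      unfold leadingCoeff
      rw [sq_deg]
      simp [coeff_X_pow, coeff_one]
    rw [h1]
    norm_num
  · intro p hp
    refine ⟨0, fun _ h => ?_⟩
    unfold sq at h
    simp only [eval_add, eval_pow, eval_X, Nat.cast_zero, eval_one] at h
    norm_num at h
    have := Int.natAbs_dvd_natAbs.2 h
    simp at this
    exact hp.one_lt.ne' this

/-- **The joint Poisson law.** Given `k`, `D`, `q`, `l` and `E, δ, θ, ε > 0`, if `r` is large, `C` is given
and `X` is large, then for all systems of `k` polynomials of degree at most `D`, coefficients at most `X ^ E`,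
without translates by some `t ≤ X ^ δ`, whose density is at most `C / log X`, the joint law of the gaps and
residues of `l + 1` consecutive rough integers holds in all intervals of length at least `X ^ θ`, up to `ε`.
In particular it holds for `n ^ 2 + 1`, where the density is of the order `1 / log y`. -/
theorem result :
    (∀ (k D q l : ℕ) (E δ θ ε : ℝ), 1 ≤ q → 0 < E → 0 < δ → 0 < θ → 0 < ε →
      ∃ r₀ : ℕ, ∀ r : ℕ, r₀ ≤ r → ∀ C : ℝ, ∀ᶠ X : ℕ in atTop, ∀ f : Fin k → ℤ[X],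
        System k D ((X : ℝ) ^ E) ((X : ℝ) ^ δ) f →
        V f ⌊(X : ℝ) ^ (1 / (r : ℝ))⌋₊ ≤ C / Real.log X →
        ∀ Z Y : ℕ, (X : ℝ) ^ θ ≤ Y → Law f ⌊(X : ℝ) ^ (1 / (r : ℝ))⌋₊ q l ε Z Y) ∧
    (∃ v₁ v₂ : ℝ, 0 < v₁ ∧ 0 < v₂ ∧ (∀ y : ℕ, 3 ≤ y →
        v₁ / Real.log y ≤ V sq y ∧ V sq y ≤ v₂ / Real.log y) ∧
      ∀ (q l : ℕ) (θ ε : ℝ), 1 ≤ q → 0 < θ → 0 < ε →
        ∃ r₀ : ℕ, ∀ r : ℕ, r₀ ≤ r → ∀ᶠ X : ℕ in atTop,
          ∀ Z Y : ℕ, (X : ℝ) ^ θ ≤ Y → Law sq ⌊(X : ℝ) ^ (1 / (r : ℝ))⌋₊ q l ε Z Y) := by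
  refine ⟨?_, ?_⟩
  · intro k D q l E δ θ ε hq hE hδ hθ hε
    obtain ⟨r0, h0⟩ := law_polys k D q l hq E δ θ ε hE hδ hθ hε
    refine ⟨r0, fun r hr C => ?_⟩
    filter_upwards [h0 r hr C] with X hX
    intro f hf hV Z Y hY
    rw [V_eq] at hV
    exact law_of f _ q l ε Z Y (hX f ⟨hf.irreducible, hf.degree_pos, hf.degree_le, hf.height_le,
      hf.admissible, hf.no_translates⟩ hV Y hY Z)
  · obtain ⟨v, Cv, hv, hCv, h⟩ := V_bounds sq sq_sys
    refine ⟨v, Cv, hv, hCv, fun y hy => ?_, ?_⟩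
    · have h1 := h y hy
      rw [Fintype.card_fin, pow_one] at h1
      rw [V_eq]
      exact h1
    intro q l θ ε hq hθ hε
    have hT : NoTr sq := noTr_single (X ^ 2 + 1) (by rw [sq_deg]; norm_num)
    obtain ⟨r0, h0⟩ := law_fixed sq sq_sys hT q l hq θ ε hθ hε
    refine ⟨r0, fun r hr => ?_⟩
    filter_upwards [h0 r hr] with X hX
    intro Z Y hY
    exact law_of sq _ q l ε Z Y (hX Y hY Z)

end Pool.Agent.Results.MP_484c84_nt.PoissonLaw
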